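import Pool.Agent.K1H35.JA.Fin2

/-!
# MP_a0040c_lc: the cost of converting jumping automata with regular languages into DFAs

`f n k` is the largest state complexity of a regular language accepted by an `n`-state jumping automaton
(nondeterministic, with empty word transitions) over `k` letters.

**Theorem.**
1. (explicit upper bound) `f n k ≤ (n + k) ^ (30 k ^ 4) * exp (11 k √(n log n))` for all `n ≥ 2`, `k ≥ 1`.
2. (lower bound) `f n k ≥ exp (c √(n k log (n / k)))` for `2 k < n`, with an absolute constant `c > 0`.
3. (growth) for every fixed `k ≥ 1`, `log (f n k)` is of order `√(n log n)`.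

## Proof of the upper bound

The language is the set of words whose Parikh vector lies in the set `S ⊆ ℕ ^ k` of Parikh vectors of accepting
walks. Removing cycles from walks shows that `S` is a union of linear sets `b + ⟨P⟩` with `b ≤ (n + 1) ^ 2` and
`p ≤ n` for `p ∈ P` (`t_REM`, `t_SEMI`). By Caratheodory's theorem for integer cones (`t_CARA`) one can take `P`
linearly independent and `b` small; membership in such a set is then described by the signs of integer functionals with
small coefficients and by congruences, so it is constant along every direction `D v`, if `v` is in the recession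
cone of the cell of the point (`t_MEM`), and if the `i`-th coordinate of a point is large there is such a `v` with
`v_i > 0` (`t_LP`, an elementary pigeonhole argument with dual vectors of small entries, `t_FUN`). Let `Λ_i` be the
least common multiple of the periods of the states with respect to the letter `i`; these periods have sum at most
`n` (`t_LAN1`), so `Λ_i ≤ exp (11 √(n log n))` (`t_LAN2`, Landau's function). Every slice of `S` in the direction
`e_i` is eventually `Λ_i`-periodic (`t_SLICE`). If `x ∈ S` and `x + Λ_i e_i ∉ S` (or conversely) for an `x`
whose `i`-th coordinate is large then the same holds for `x + t D v` for all `t` (`t_PUMP`); regularity makes `S` periodic in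
the direction `e_i` beyond some (unknown) threshold and together with the eventual `Λ_i`-periodicity of the slices this
gives a contradiction. So `S` is `Λ_i`-periodic in the `i`-th coordinate beyond an explicit threshold.

## Proof of the lower bound

`L = {w | ∃ i, ∃ p ∈ V, p ∤ |w|_i}` where `V` is a set of primes: `1 + k ∑ p` states, state complexity `(∏ p) ^ k`.
-/

namespace Pool.Agent.Results.MP_a0040c_lc.ConversionCost

open Pool.Agent.K1H35.JA

theorem result :
    (∀ n k : ℕ, 2 ≤ n → 1 ≤ k → (vals n k).Nonempty ∧ BddAbove (vals n k) ∧
      (f n k : ℝ) ≤ ((n : ℝ) + k) ^ (30 * k ^ 4) *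
        Real.exp (11 * k * Real.sqrt (n * Real.log n))) ∧
    (∃ c : ℝ, 0 < c ∧ ∀ n k : ℕ, 1 ≤ k → 2 * k < n →
      Real.exp (c * Real.sqrt (n * k * Real.log (n / k))) ≤ (f n k : ℝ)) ∧
    (∀ k : ℕ, 1 ≤ k → ∃ c C : ℝ, 0 < c ∧ 0 < C ∧ ∀ n : ℕ, 2 ≤ n →
      Real.exp (c * Real.sqrt (n * Real.log n)) ≤ (f n k : ℝ) ∧
      (f n k : ℝ) ≤ Real.exp (C * Real.sqrt (n * Real.log n))) :=
  ⟨nonempty_bdd, low2 r_LOWK, growth⟩

end Pool.Agent.Results.MP_a0040c_lc.ConversionCost
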